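import Pool.Agent.Q224.DJ.Stm

/-!
# Project DJ, job SIGEQ
-/

set_option autoImplicit false

namespace Pool.Agent.Q277.DJ

open Finset Classical
open Pool.Agent.Q224.DJ

theorem pick (L S : Finset (Fin 7)) (h : S.card < L.card) : ∃ c ∈ L, c ∉ S := by
  by_contra hcon
  push Not at hcon
  exact absurd (Finset.card_le_card (fun x hx => hcon x hx : L ⊆ S)) (not_le.2 h)

theorem card_two_le (a b : Fin 7) : ({a, b} : Finset (Fin 7)).card ≤ 2 := Finset.card_le_two

/-- disjoint choice -/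
theorem listC (L2 L3 L4 : Finset (Fin 7)) (a : Fin 7) (h2 : 2 ≤ L2.card) (h4 : 2 ≤ L4.card)
    (hd : ∀ x ∈ L2, x ∉ L4) (h3 : 2 ≤ (L3.erase a).card) :
    ∃ c3 ∈ L3, ∃ c2 ∈ L2, ∃ c4 ∈ L4, a ≠ c3 ∧ a ≠ c2 ∧ a ≠ c4 ∧ c3 ≠ c2 ∧ c3 ≠ c4 := by
  by_cases ha : a ∈ L2
  · obtain ⟨x, hx, hxa⟩ := pick L2 {a} (by rw [Finset.card_singleton]; omega)
    obtain ⟨c3, hc3, hc3x⟩ := pick (L3.erase a) {x} (by rw [Finset.card_singleton]; omega)
    obtain ⟨c4, hc4, hc4x⟩ := pick L4 {c3} (by rw [Finset.card_singleton]; omega)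
    rw [Finset.mem_singleton] at hxa hc3x hc4x
    rw [Finset.mem_erase] at hc3
    refine ⟨c3, hc3.2, x, hx, c4, hc4, Ne.symm hc3.1, Ne.symm hxa, ?_, hc3x, Ne.symm hc4x⟩
    rintro rfl
    exact hd _ ha hc4
  · obtain ⟨y, hy, hya⟩ := pick L4 {a} (by rw [Finset.card_singleton]; omega)
    obtain ⟨c3, hc3, hc3y⟩ := pick (L3.erase a) {y} (by rw [Finset.card_singleton]; omega)
    obtain ⟨c2, hc2, hc2x⟩ := pick L2 {c3} (by rw [Finset.card_singleton]; omega)
    rw [Finset.mem_singleton] at hya hc3y hc2x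
    rw [Finset.mem_erase] at hc3
    refine ⟨c3, hc3.2, c2, hc2, y, hy, Ne.symm hc3.1, ?_, Ne.symm hya, Ne.symm hc2x, hc3y⟩
    rintro rfl
    exact ha hc2

/-- common choice on one side -/
theorem listA (L2 L4 : Finset (Fin 7)) (a : Fin 7) (e : Prop) (h2 : 2 ≤ L2.card)
    (h4 : 2 ≤ L4.card) (he : e → 3 ≤ L4.card) :
    ∃ c2 ∈ L2, ∃ c4 ∈ L4, a ≠ c2 ∧ a ≠ c4 ∧ (e → c2 ≠ c4) := by
  obtain ⟨c2, hc2, hc2a⟩ := pick L2 {a} (by rw [Finset.card_singleton]; omega)
  rw [Finset.mem_singleton] at hc2a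
  by_cases h : e
  · obtain ⟨c4, hc4, hc4a⟩ := pick L4 {a, c2} (by have := card_two_le a c2; have := he h; omega)
    rw [Finset.mem_insert, Finset.mem_singleton, not_or] at hc4a
    exact ⟨c2, hc2, c4, hc4, Ne.symm hc2a, Ne.symm hc4a.1, fun _ => Ne.symm hc4a.2⟩
  · obtain ⟨c4, hc4, hc4a⟩ := pick L4 {a} (by rw [Finset.card_singleton]; omega)
    rw [Finset.mem_singleton] at hc4a
    exact ⟨c2, hc2, c4, hc4, Ne.symm hc2a, Ne.symm hc4a, fun h' => absurd h' h⟩

/-- the list colouring of four vertices -/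
theorem lists (L1 L2 L3 L4 Z : Finset (Fin 7)) (e13 e24 : Prop) (hZ : Z.card ≤ 2)
    (h1 : 2 ≤ L1.card) (h2 : 2 ≤ L2.card) (h3 : 2 ≤ L3.card) (h4 : 2 ≤ L4.card)
    (k1 : e13 → 3 ≤ L1.card) (k3 : e13 → 3 ≤ L3.card)
    (k2 : e24 → 3 ≤ L2.card) (k4 : e24 → 3 ≤ L4.card) :
    ∃ c1 ∈ L1, ∃ c2 ∈ L2, ∃ c3 ∈ L3, ∃ c4 ∈ L4, (e13 → c1 ≠ c3) ∧ (e24 → c2 ≠ c4) ∧
      c1 ≠ c4 ∧ c3 ≠ c2 ∧ ((c1 ≠ c2 ∧ c3 ≠ c4) ∨ (c1 = c2 ∧ c1 ∉ Z ∧ c1 ≠ c3 ∧ c3 ≠ c4)) := by
  by_cases hA : ¬ e13 ∧ ∃ a ∈ L1, a ∈ L3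
  · obtain ⟨he, a, ha1, ha3⟩ := hA
    obtain ⟨c2, hc2, c4, hc4, r1, r2, r3⟩ := listA L2 L4 a e24 h2 h4 k4
    exact ⟨a, ha1, c2, hc2, a, ha3, c4, hc4, fun h => absurd h he, r3, r2, r1, Or.inl ⟨r1, r2⟩⟩
  by_cases hB : ¬ e24 ∧ ∃ a ∈ L2, a ∈ L4
  · obtain ⟨he, a, ha2, ha4⟩ := hB
    obtain ⟨c1, hc1, c3, hc3, r1, r2, r3⟩ := listA L1 L3 a e13 h1 h3 k3
    exact ⟨c1, hc1, a, ha2, c3, hc3, a, ha4, r3, fun h => absurd h he, Ne.symm r1, Ne.symm r2,
      Or.inl ⟨Ne.symm r1, Ne.symm r2⟩⟩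
  by_cases h24 : e24
  · by_cases h13 : e13
    · -- Hall
      have g1 := k1 h13
      have g3 := k3 h13
      have g2 := k2 h24
      have g4 := k4 h24
      let t : Fin 4 → Finset (Fin 7) := ![L1, L2, L3, L4]
      have ht : ∀ i, 3 ≤ (t i).card := by
        intro i
        fin_cases i
        · exact g1
        · exact g2
        · exact g3
        · exact g4
      by_cases hH : ∀ s : Finset (Fin 4), s.card ≤ (s.biUnion t).card
      · obtain ⟨f, hf, hft⟩ := (Finset.all_card_le_biUnion_card_iff_exists_injective t).1 hH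
        refine ⟨f 0, hft 0, f 1, hft 1, f 2, hft 2, f 3, hft 3, fun _ => ?_, fun _ => ?_, ?_, ?_,
          Or.inl ⟨?_, ?_⟩⟩ <;> exact fun h => absurd (hf h) (by decide)
      · push Not at hH
        obtain ⟨s, hs⟩ := hH
        have hsne : s.Nonempty := by
          rw [← Finset.card_pos]; omega
        obtain ⟨i, hi⟩ := hsne
        have h5 : (t i).card ≤ (s.biUnion t).card :=
          Finset.card_le_card (Finset.subset_biUnion_of_mem t hi)
        have h6 : s.card ≤ 4 := by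
          have := Finset.card_le_univ s
          simpa using this
        have h7 := ht i
        have h8 : s = univ := Finset.eq_univ_of_card s (by
          rw [Fintype.card_fin]; omega)
        have h9 : (s.biUnion t).card = 3 := by omega
        set T := s.biUnion t with hT
        have h10 : ∀ j, t j = T := by
          intro j
          apply Finset.eq_of_subset_of_card_le
          · exact Finset.subset_biUnion_of_mem t (by rw [h8]; exact Finset.mem_univ j)
          · rw [h9]; exact ht j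
        have e1 : L1 = T := h10 0
        have e2 : L2 = T := h10 1
        have e3 : L3 = T := h10 2
        have e4 : L4 = T := h10 3
        obtain ⟨a, ha, haZ⟩ := pick T Z (by omega)
        obtain ⟨b, hb, hba⟩ := pick T {a} (by rw [Finset.card_singleton]; omega)
        obtain ⟨c, hc, hcab⟩ := pick T {a, b} (by have := card_two_le a b; omega)
        rw [Finset.mem_singleton] at hba
        rw [Finset.mem_insert, Finset.mem_singleton, not_or] at hcab
        rw [e1, e2, e3, e4]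
        exact ⟨a, ha, a, ha, b, hb, c, hc, fun _ => Ne.symm hba, fun _ => Ne.symm hcab.1,
          Ne.symm hcab.1, hba, Or.inr ⟨rfl, haZ, Ne.symm hba, Ne.symm hcab.2⟩⟩
    · -- C3
      have hd : ∀ x ∈ L1, x ∉ L3 := fun x hx hx' => hA ⟨h13, x, hx, hx'⟩
      obtain ⟨a, ha, -⟩ := pick L2 ∅ (by rw [Finset.card_empty]; omega)
      have g4 := k4 h24
      have h5 : 2 ≤ (L4.erase a).card := by
        have := Finset.pred_card_le_card_erase (s := L4) (a := a)
        omega
      obtain ⟨c4, hc4, c1, hc1, c3, hc3, r1, r2, r3, r4, r5⟩ := listC L1 L4 L3 a h1 h3 hd h5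
      exact ⟨c1, hc1, a, ha, c3, hc3, c4, hc4, fun h => absurd h h13, fun _ => r1, Ne.symm r4,
        Ne.symm r3, Or.inl ⟨Ne.symm r2, Ne.symm r5⟩⟩
  · have hd : ∀ x ∈ L2, x ∉ L4 := fun x hx hx' => hB ⟨h24, x, hx, hx'⟩
    obtain ⟨a, ha, -⟩ := pick L1 ∅ (by rw [Finset.card_empty]; omega)
    have h5 : 2 ≤ (L3.erase a).card := by
      by_cases h13 : e13
      · have := Finset.pred_card_le_card_erase (s := L3) (a := a)
        have := k3 h13
        omega
      · have : a ∉ L3 := fun h => hA ⟨h13, a, ha, h⟩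
        rw [Finset.erase_eq_of_notMem this]
        exact h3
    obtain ⟨c3, hc3, c2, hc2, c4, hc4, r1, r2, r3, r4, r5⟩ := listC L2 L3 L4 a h2 h4 hd h5
    exact ⟨a, ha, c2, hc2, c3, hc3, c4, hc4, fun _ => r1, fun h => absurd h h24, r3, r4,
      Or.inl ⟨r2, r5⟩⟩

section

variable {V : Type} [Fintype V] (G : SimpleGraph V) (K R : Finset V)

theorem mem_nb (W : Finset V) (x y : V) : y ∈ nb G W x ↔ y ∈ W ∧ G.Adj x y := by
  unfold nb
  rw [Finset.mem_filter]

/-- degree bound with a set of further neighbours -/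
theorem degb (h : Hyp G K R) (x : V) (W : Finset V) (hW : W ⊆ R) (hx : (nb G K x).card = 3)
    (E : Finset V) (hE : ∀ y ∈ E, y ∈ R ∧ y ∉ W ∧ G.Adj x y) :
    (nb G W x).card + 3 + E.card ≤ 8 := by
  have h1 : nb G W x ∪ nb G K x ∪ E ⊆ nb G univ x := by
    intro y hy
    rw [Finset.mem_union, Finset.mem_union, mem_nb, mem_nb] at hy
    rw [mem_nb]
    refine ⟨Finset.mem_univ _, ?_⟩
    rcases hy with (hy | hy) | hy
    · exact hy.2
    · exact hy.2
    · exact (hE y hy).2.2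
  have h2 := (Finset.card_le_card h1).trans (h.2.2.2.2.2.1 x)
  rw [Finset.card_union_of_disjoint, Finset.card_union_of_disjoint, hx] at h2
  · exact h2
  · rw [Finset.disjoint_left]
    intro y hy hy'
    rw [mem_nb] at hy hy'
    exact h.2.1 y hy'.1 (hW hy.1)
  · rw [Finset.disjoint_left]
    intro y hy hy'
    rw [Finset.mem_union, mem_nb, mem_nb] at hy
    rcases hy with hy | hy
    · exact (hE y hy').2.1 hy.1
    · exact h.2.1 y hy.1 (hE y hy').1

/-- a vertex of `K` has at most two neighbours in `R` -/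
theorem two (h : Hyp G K R) (v : V) (hv : v ∈ K) : (nb G R v).card ≤ 2 := by
  have h1 : K.erase v ∪ nb G R v ⊆ nb G univ v := by
    intro y hy
    rw [Finset.mem_union, Finset.mem_erase, mem_nb] at hy
    rw [mem_nb]
    refine ⟨Finset.mem_univ _, ?_⟩
    rcases hy with hy | hy
    · exact h.2.2.2.1 v hv y hy.2 (Ne.symm hy.1)
    · exact hy.2
  have h2 := (Finset.card_le_card h1).trans (h.2.2.2.2.2.1 v)
  rw [Finset.card_union_of_disjoint, Finset.card_erase_of_mem hv, h.2.2.1] at h2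
  · omega
  · rw [Finset.disjoint_left]
    intro y hy hy'
    rw [mem_nb] at hy'
    exact h.2.1 y (Finset.mem_of_mem_erase hy) hy'.1

end

theorem sigeq : S_SIGEQ := by
  intro hLB V _ G K R u1 u2 u3 u4 hH m1 m2 m3 m4 hnd hc1 hc2 hdis he1 he2 hn12 hn34
  have hc3 : (nb G K u3).card = 3 := by rw [← he1]; exact hc1
  have hc4 : (nb G K u4).card = 3 := by rw [← he2]; exact hc2
  simp only [List.nodup_cons, List.mem_cons, List.not_mem_nil, or_false, not_or,
    List.nodup_nil, and_true, not_false_eq_true] at hnd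
  obtain ⟨⟨n12, n13, n14⟩, ⟨n23, n24⟩, n34⟩ := hnd
  -- the rest
  set W : Finset V := R.filter (fun y => y ≠ u1 ∧ y ≠ u2 ∧ y ≠ u3 ∧ y ≠ u4) with hW
  have memW : ∀ y, y ∈ W ↔ y ∈ R ∧ y ≠ u1 ∧ y ≠ u2 ∧ y ≠ u3 ∧ y ≠ u4 := fun y => by
    rw [hW, Finset.mem_filter]
  have hWR : W ⊆ R := Finset.filter_subset _ _
  obtain ⟨f, hf⟩ := hLB V G W ((Finset.card_le_card hWR).trans hH.2.2.2.2.1)
    (fun x _ => by
      refine le_trans (Finset.card_le_card ?_) (hH.2.2.2.2.2.1 x)
      intro y hy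
      rw [mem_nb] at hy ⊢
      exact ⟨Finset.mem_univ _, hy.2⟩)
    (fun Q _ hQ8 => hH.2.2.2.2.2.2 Q (Finset.subset_univ _) hQ8)
  -- the lists
  let L : V → Finset (Fin 7) := fun u => univ \ (nb G W u).image f
  have hL : ∀ u, 7 ≤ (L u).card + (nb G W u).card := by
    intro u
    have h1 : (univ : Finset (Fin 7)).card - ((nb G W u).image f).card ≤ (L u).card :=
      Finset.le_card_sdiff _ _
    have h2 : ((nb G W u).image f).card ≤ (nb G W u).card := Finset.card_image_le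
    rw [Finset.card_univ, Fintype.card_fin] at h1
    omega
  have hLf : ∀ u, ∀ c ∈ L u, ∀ y ∈ W, G.Adj u y → c ≠ f y := by
    intro u c hc y hy hu h
    rw [Finset.mem_sdiff] at hc
    exact hc.2 (Finset.mem_image.2 ⟨y, (mem_nb G W u y).2 ⟨hy, hu⟩, h.symm⟩)
  have b0 : ∀ u, (nb G K u).card = 3 → 2 ≤ (L u).card := by
    intro u hu
    have := degb G K R hH u W hWR hu ∅ (fun y hy => absurd hy (Finset.notMem_empty y))
    rw [Finset.card_empty] at this
    have := hL u
    omega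
  have b1 : ∀ u y, (nb G K u).card = 3 → G.Adj u y → y ∈ R → y ∉ W → 3 ≤ (L u).card := by
    intro u y hu huy hy hyW
    have := degb G K R hH u W hWR hu {y} (fun z hz => by
      rw [Finset.mem_singleton] at hz; subst hz; exact ⟨hy, hyW, huy⟩)
    rw [Finset.card_singleton] at this
    have := hL u
    omega
  have w1 : u1 ∉ W := fun h => ((memW _).1 h).2.1 rfl
  have w2 : u2 ∉ W := fun h => ((memW _).1 h).2.2.1 rfl
  have w3 : u3 ∉ W := fun h => ((memW _).1 h).2.2.2.1 rfl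
  have w4 : u4 ∉ W := fun h => ((memW _).1 h).2.2.2.2 rfl
  -- the last vertex of `K`
  have hPK : nb G K u1 ∪ nb G K u2 ⊆ K := by
    intro y hy
    rw [Finset.mem_union, mem_nb, mem_nb] at hy
    rcases hy with hy | hy
    · exact hy.1
    · exact hy.1
  obtain ⟨v0, hv0K, hv0⟩ : ∃ v0 ∈ K, v0 ∉ nb G K u1 ∪ nb G K u2 := by
    by_contra hcon
    push Not at hcon
    have := Finset.card_le_card (fun x hx => hcon x hx : K ⊆ nb G K u1 ∪ nb G K u2)
    rw [Finset.card_union_of_disjoint hdis, hc1, hc2, hH.2.2.1] at this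
    omega
  rw [Finset.mem_union, not_or] at hv0
  let Z := (nb G W v0).image f
  have hZ : Z.card ≤ 2 := by
    refine Finset.card_image_le.trans (le_trans (Finset.card_le_card ?_) (two G K R hH v0 hv0K))
    intro y hy
    rw [mem_nb] at hy ⊢
    exact ⟨hWR hy.1, hy.2⟩
  obtain ⟨c1, l1, c2, l2, c3, l3, c4, l4, q13, q24, q14, q32, hq⟩ :=
    lists (L u1) (L u2) (L u3) (L u4) Z (G.Adj u1 u3) (G.Adj u2 u4) hZ (b0 u1 hc1) (b0 u2 hc2)
      (b0 u3 hc3) (b0 u4 hc4) (fun h => b1 u1 u3 hc1 h m3 w3) (fun h => b1 u3 u1 hc3 h.symm m1 w1)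
      (fun h => b1 u2 u4 hc2 h m4 w4) (fun h => b1 u4 u2 hc4 h.symm m2 w2)
  let g : V → Fin 7 := fun v => if v = u1 then c1 else if v = u2 then c2 else
    if v = u3 then c3 else if v = u4 then c4 else f v
  have g1 : g u1 = c1 := by simp only [g, if_true]
  have g2 : g u2 = c2 := by simp only [g, if_neg (Ne.symm n12), if_true]
  have g3 : g u3 = c3 := by simp only [g, if_neg (Ne.symm n13), if_neg (Ne.symm n23), if_true]
  have g4 : g u4 = c4 := by
    simp only [g, if_neg (Ne.symm n14), if_neg (Ne.symm n24), if_neg (Ne.symm n34), if_true]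
  have gW : ∀ y ∈ W, g y = f y := by
    intro y hy
    obtain ⟨_, a1, a2, a3, a4⟩ := (memW y).1 hy
    simp only [g, if_neg a1, if_neg a2, if_neg a3, if_neg a4]
  have hcases : ∀ y ∈ R, y = u1 ∨ y = u2 ∨ y = u3 ∨ y = u4 ∨ y ∈ W := by
    intro y hy
    by_contra hcon
    push Not at hcon
    exact hcon.2.2.2.2 ((memW y).2 ⟨hy, hcon.1, hcon.2.1, hcon.2.2.1, hcon.2.2.2.1⟩)
  have hcol : Col G R g := by
    intro x hx y hy hxy
    rcases hcases x hx with rfl | rfl | rfl | rfl | hx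
    · rcases hcases y hy with rfl | rfl | rfl | rfl | hy
      · exact absurd hxy (G.loopless.irrefl _)
      · exact absurd hxy hn12
      · rw [g1, g3]; exact q13 hxy
      · rw [g1, g4]; exact q14
      · rw [g1, gW y hy]; exact hLf _ _ l1 y hy hxy
    · rcases hcases y hy with rfl | rfl | rfl | rfl | hy
      · exact absurd hxy.symm hn12
      · exact absurd hxy (G.loopless.irrefl _)
      · rw [g2, g3]; exact Ne.symm q32
      · rw [g2, g4]; exact q24 hxy
      · rw [g2, gW y hy]; exact hLf _ _ l2 y hy hxy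
    · rcases hcases y hy with rfl | rfl | rfl | rfl | hy
      · rw [g3, g1]; exact Ne.symm (q13 hxy.symm)
      · rw [g3, g2]; exact q32
      · exact absurd hxy (G.loopless.irrefl _)
      · exact absurd hxy hn34
      · rw [g3, gW y hy]; exact hLf _ _ l3 y hy hxy
    · rcases hcases y hy with rfl | rfl | rfl | rfl | hy
      · rw [g4, g1]; exact Ne.symm q14
      · rw [g4, g2]; exact Ne.symm (q24 hxy.symm)
      · exact absurd hxy.symm hn34
      · exact absurd hxy (G.loopless.irrefl _)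
      · rw [g4, gW y hy]; exact hLf _ _ l4 y hy hxy
    · rcases hcases y hy with rfl | rfl | rfl | rfl | hy
      · rw [g1, gW x hx]; exact Ne.symm (hLf _ _ l1 x hx hxy.symm)
      · rw [g2, gW x hx]; exact Ne.symm (hLf _ _ l2 x hx hxy.symm)
      · rw [g3, gW x hx]; exact Ne.symm (hLf _ _ l3 x hx hxy.symm)
      · rw [g4, gW x hx]; exact Ne.symm (hLf _ _ l4 x hx hxy.symm)
      · rw [gW x hx, gW y hy]; exact hf x hx y hy hxy
  -- who sees what
  have sP : ∀ v ∈ nb G K u1, ∀ c, Sees G R g v c → c = c1 ∨ c = c3 := by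
    intro v hv c hc
    have hv3 : v ∈ nb G K u3 := he1 ▸ hv
    rw [mem_nb] at hv hv3
    have h1 : ({u1, u3} : Finset V) ⊆ nb G R v := by
      intro y hy
      rw [Finset.mem_insert, Finset.mem_singleton] at hy
      rw [mem_nb]
      rcases hy with rfl | rfl
      · exact ⟨m1, hv.2.symm⟩
      · exact ⟨m3, hv3.2.symm⟩
    have h2 := Finset.eq_of_subset_of_card_le h1 (by
      rw [Finset.card_pair n13]; exact two G K R hH v hv.1)
    obtain ⟨u, hu, huv, rfl⟩ := hc
    have h3 : u ∈ nb G R v := (mem_nb G R v u).2 ⟨hu, huv⟩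
    rw [← h2, Finset.mem_insert, Finset.mem_singleton] at h3
    rcases h3 with rfl | rfl
    · exact Or.inl g1
    · exact Or.inr g3
  have sP' : ∀ v ∈ nb G K u2, ∀ c, Sees G R g v c → c = c2 ∨ c = c4 := by
    intro v hv c hc
    have hv3 : v ∈ nb G K u4 := he2 ▸ hv
    rw [mem_nb] at hv hv3
    have h1 : ({u2, u4} : Finset V) ⊆ nb G R v := by
      intro y hy
      rw [Finset.mem_insert, Finset.mem_singleton] at hy
      rw [mem_nb]
      rcases hy with rfl | rfl
      · exact ⟨m2, hv.2.symm⟩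
      · exact ⟨m4, hv3.2.symm⟩
    have h2 := Finset.eq_of_subset_of_card_le h1 (by
      rw [Finset.card_pair n24]; exact two G K R hH v hv.1)
    obtain ⟨u, hu, huv, rfl⟩ := hc
    have h3 : u ∈ nb G R v := (mem_nb G R v u).2 ⟨hu, huv⟩
    rw [← h2, Finset.mem_insert, Finset.mem_singleton] at h3
    rcases h3 with rfl | rfl
    · exact Or.inl g2
    · exact Or.inr g4
  have s0 : ∀ c, Sees G R g v0 c → c ∈ Z := by
    intro c hc
    obtain ⟨u, hu, huv, rfl⟩ := hc
    have hv1 : ¬ G.Adj u1 v0 := fun h => hv0.1 ((mem_nb _ _ _ _).2 ⟨hv0K, h⟩)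
    have hv2 : ¬ G.Adj u2 v0 := fun h => hv0.2 ((mem_nb _ _ _ _).2 ⟨hv0K, h⟩)
    have hv3 : ¬ G.Adj u3 v0 := fun h => hv0.1 (he1 ▸ (mem_nb _ _ _ _).2 ⟨hv0K, h⟩)
    have hv4 : ¬ G.Adj u4 v0 := fun h => hv0.2 (he2 ▸ (mem_nb _ _ _ _).2 ⟨hv0K, h⟩)
    rcases hcases u hu with rfl | rfl | rfl | rfl | hu
    · exact absurd huv.symm hv1
    · exact absurd huv.symm hv2
    · exact absurd huv.symm hv3
    · exact absurd huv.symm hv4
    · rw [gW u hu]
      exact Finset.mem_image.2 ⟨u, (mem_nb _ _ _ _).2 ⟨hu, huv⟩, rfl⟩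
  obtain ⟨p, hp, p', hp', hpp⟩ := Finset.one_lt_card.1 (by rw [hc1]; norm_num : 1 < (nb G K u1).card)
  obtain ⟨r, hr, r', hr', hrr⟩ := Finset.one_lt_card.1 (by rw [hc2]; norm_num : 1 < (nb G K u2).card)
  have hpK := ((mem_nb _ _ _ _).1 hp).1
  have hpK' := ((mem_nb _ _ _ _).1 hp').1
  have hrK := ((mem_nb _ _ _ _).1 hr).1
  have hrK' := ((mem_nb _ _ _ _).1 hr').1
  refine ⟨g, hcol, ?_, ?_⟩
  · intro c
    by_cases h13 : c = c1 ∨ c = c3
    · by_cases h24 : c = c2 ∨ c = c4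
      · -- common colour
        refine ⟨v0, hv0K, fun h => ?_⟩
        have hcZ := s0 c h
        rcases hq with ⟨a1, a2⟩ | ⟨a1, a2, a3, a4⟩
        · rcases h13 with rfl | rfl
          · rcases h24 with h | h
            · exact a1 h
            · exact q14 h
          · rcases h24 with h | h
            · exact q32 h
            · exact a2 h
        · rcases h13 with rfl | rfl
          · exact a2 hcZ
          · rcases h24 with h | h
            · exact q32 h
            · exact a4 h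
      · exact ⟨r, hrK, fun h => h24 (sP' r hr c h)⟩
    · exact ⟨p, hpK, fun h => h13 (sP p hp c h)⟩
  · intro c c' hcc
    by_cases h13 : (c = c1 ∨ c = c3) ∧ (c' = c1 ∨ c' = c3)
    · have key : ¬ ((c = c2 ∨ c = c4) ∧ (c' = c2 ∨ c' = c4)) := by
        rintro ⟨k1, k2⟩
        obtain ⟨j1, j2⟩ := h13
        have : c = c3 ∨ c' = c3 := by
          rcases j1 with rfl | rfl
          · rcases j2 with rfl | rfl
            · exact absurd rfl hcc
            · exact Or.inr rfl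
          · exact Or.inl rfl
        have h34 : c3 ≠ c4 := by
          rcases hq with ⟨_, a2⟩ | ⟨_, _, _, a4⟩
          · exact a2
          · exact a4
        rcases this with h | h
        · rw [h] at k1
          rcases k1 with h | h
          · exact q32 h
          · exact h34 h
        · rw [h] at k2
          rcases k2 with h | h
          · exact q32 h
          · exact h34 h
      exact ⟨r, hrK, r', hrK', hrr, fun h => key ⟨sP' r hr c h.1, sP' r hr c' h.2⟩,
        fun h => key ⟨sP' r' hr' c h.1, sP' r' hr' c' h.2⟩⟩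
    · exact ⟨p, hpK, p', hpK', hpp, fun h => h13 ⟨sP p hp c h.1, sP p hp c' h.2⟩,
        fun h => h13 ⟨sP p' hp' c h.1, sP p' hp' c' h.2⟩⟩

end Pool.Agent.Q277.DJ
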