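import Pool.Agent.Q224.DJ.Stm

/-!
# Project DJ, job TU: Tutte's theorem for fourteen vertices
-/

set_option autoImplicit false

namespace Pool.Agent.Q277.DJ

open Finset Classical
open Pool.Agent.Q224.DJ

/-- the finite form of a Tutte violator -/
theorem extract (U : Type) [Fintype U] (F : SimpleGraph U) (hcard : Fintype.card U = 14)
    (h : ¬ ∃ M : (Fᶜ).Subgraph, M.IsPerfectMatching) :
    ∃ (S : Finset U) (ι : Type) (_ : Fintype ι) (C : ι → Finset U), S.card + 2 ≤ Fintype.card ι ∧
      (∀ i j, i ≠ j → Disjoint (C i) (C j)) ∧ (∀ i, Odd (C i).card) ∧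
      (∀ i, ∀ x ∈ C i, x ∉ S) ∧ ∀ i, ∀ x ∈ C i, ∀ y, y ∉ S → y ∉ C i → F.Adj x y := by
  rw [SimpleGraph.tutte] at h
  push Not at h
  obtain ⟨u, hu⟩ := h
  unfold SimpleGraph.IsTutteViolator at hu
  set D := (⊤ : (Fᶜ).Subgraph).deleteVerts u with hD
  have hverts : ∀ x, x ∈ D.verts ↔ x ∉ u := by
    intro x
    simp [hD]
  let C : D.coe.oddComponents → Finset U := fun c =>
    univ.filter (fun x => ∃ hx : x ∈ D.verts, D.coe.connectedComponentMk ⟨x, hx⟩ = c.1)
  have hC : ∀ (c : D.coe.oddComponents) (x : U), x ∈ C c ↔
      ∃ hx : x ∈ D.verts, D.coe.connectedComponentMk ⟨x, hx⟩ = c.1 := by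
    intro c x
    simp [C]
  have hfin : Finite D.coe.oddComponents := inferInstance
  have : Fintype D.coe.oddComponents := Fintype.ofFinite _
  refine ⟨u.toFinset, D.coe.oddComponents, inferInstance, C, ?_, ?_, ?_, ?_, ?_⟩
  · have h1 : Fintype.card D.coe.oddComponents = D.coe.oddComponents.ncard := by
      rw [← Nat.card_eq_fintype_card]; rfl
    have h2 : (u.toFinset).card = u.ncard := by
      rw [Set.ncard_eq_toFinset_card']
    rw [h1, h2]
    have h3 := SimpleGraph.odd_ncard_oddComponents (G := D.coe)
    have h4 : Nat.card D.verts = 14 - u.ncard := by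
      have e : D.verts = uᶜ := by
        ext x; exact hverts x
      rw [e]
      have := Set.ncard_add_ncard_compl u
      rw [Nat.card_eq_fintype_card, hcard] at this
      have e2 : Nat.card (uᶜ : Set U) = (uᶜ : Set U).ncard := rfl
      rw [e2]
      omega
    have h5 : u.ncard ≤ 14 := by
      have := Set.ncard_add_ncard_compl u
      rw [Nat.card_eq_fintype_card, hcard] at this
      omega
    rw [h4] at h3
    by_contra hcon
    have h6 : D.coe.oddComponents.ncard = u.ncard + 1 := by omega
    rw [h6] at h3
    rcases Nat.even_or_odd u.ncard with he | ho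
    · have h7 : Odd (u.ncard + 1) := he.add_one
      have h8 := h3.1 h7
      rw [Nat.odd_sub h5] at h8
      exact absurd (h8.2 he) (by decide)
    · have h7 : ¬ Odd (u.ncard + 1) := by
        rw [Nat.not_odd_iff_even]; exact ho.add_one
      apply h7
      apply h3.2
      rw [Nat.odd_sub h5]
      constructor
      · intro h; exact absurd h (by decide)
      · intro h; exact absurd ho (Nat.not_odd_iff_even.2 h)
  · intro i j hij
    rw [Finset.disjoint_left]
    intro x hx hx'
    obtain ⟨h1, h2⟩ := (hC i x).1 hx
    obtain ⟨h3, h4⟩ := (hC j x).1 hx'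
    exact hij (Subtype.ext (h2.symm.trans h4))
  · intro i
    have h1 : Odd (i.1.supp.ncard) := i.2
    have h2 : (C i).card = i.1.supp.ncard := by
      rw [← Set.ncard_image_of_injective i.1.supp Subtype.val_injective,
        ← Set.ncard_coe_finset]
      congr 1
      ext x
      rw [Finset.mem_coe, hC]
      constructor
      · rintro ⟨hx, hx'⟩
        exact ⟨⟨x, hx⟩, hx', rfl⟩
      · rintro ⟨⟨y, hy⟩, hy', rfl⟩
        exact ⟨hy, hy'⟩
    rw [h2]; exact h1
  · intro i x hx
    obtain ⟨h1, _⟩ := (hC i x).1 hx
    rw [Set.mem_toFinset]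
    exact (hverts x).1 h1
  · intro i x hx y hy hyi
    obtain ⟨h1, h2⟩ := (hC i x).1 hx
    rw [Set.mem_toFinset] at hy
    have h3 : y ∈ D.verts := (hverts y).2 hy
    by_contra hadj
    apply hyi
    rw [hC]
    refine ⟨h3, ?_⟩
    rw [← h2]
    have hne : x ≠ y := by
      rintro rfl
      exact hyi hx
    have h4 : (Fᶜ).Adj x y := by
      rw [SimpleGraph.compl_adj]; exact ⟨hne, hadj⟩
    have h5 : D.coe.Adj ⟨y, h3⟩ ⟨x, h1⟩ := by
      rw [SimpleGraph.Subgraph.coe_adj]
      exact SimpleGraph.Subgraph.deleteVerts_adj.2 ⟨trivial, hy, trivial, (hverts x).1 h1, h4.symm⟩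
    exact SimpleGraph.ConnectedComponent.sound h5.reachable

theorem tu : S_TU := by
  intro U _ F hcard hdeg hK8
  by_cases hM : ∃ M : (Fᶜ).Subgraph, M.IsPerfectMatching
  · exact Or.inl hM
  right
  obtain ⟨S, ι, _, C, hk, hdis, hodd, hS, hadj⟩ := extract U F hcard hM
  have hne : ∀ i, (C i).Nonempty := fun i => by
    rw [← Finset.card_pos]; exact (hodd i).pos
  choose x hx using hne
  have hxS : ∀ i, x i ∉ S := fun i => hS i _ (hx i)
  have hxC : ∀ i j, i ≠ j → ∀ y ∈ C j, y ∉ C i := fun i j hij y hy hy' =>
    (Finset.disjoint_left.1 (hdis i j hij)) hy' hy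
  have hxinj : Function.Injective x := by
    intro i j hij
    by_contra h
    exact hxC i j h (x j) (hx j) (hij ▸ hx i)
  have hxadj : ∀ i j, i ≠ j → F.Adj (x i) (x j) := fun i j hij =>
    hadj i _ (hx i) _ (hxS j) (hxC i j hij _ (hx j))
  have hcl : ∀ I : Finset ι, Clq F (I.image x) := by
    intro I a ha b hb hab
    obtain ⟨i, _, rfl⟩ := Finset.mem_image.1 ha
    obtain ⟨j, _, rfl⟩ := Finset.mem_image.1 hb
    exact hxadj i j (fun h => hab (by rw [h]))
  have hk7 : Fintype.card ι ≤ 7 := by
    by_contra hcon
    obtain ⟨I, _, hI⟩ := Finset.exists_subset_card_eq (s := (univ : Finset ι)) (n := 8)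
      (by rw [Finset.card_univ]; omega)
    exact hK8 (I.image x) (Finset.subset_univ _)
      (by rw [Finset.card_image_of_injective _ hxinj, hI]) (hcl I)
  have hScomp : (univ \ S).card = 14 - S.card := by
    rw [Finset.card_sdiff_of_subset (Finset.subset_univ _), Finset.card_univ, hcard]
  have hS14 : S.card ≤ 14 := by
    rw [← hcard, ← Finset.card_univ]; exact Finset.card_le_card (Finset.subset_univ _)
  have hsum : ∑ i, (C i).card ≤ 14 - S.card := by
    rw [← hScomp, ← Finset.card_biUnion (fun i _ j _ hij => hdis i j hij)]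
    apply Finset.card_le_card
    intro y hy
    obtain ⟨i, _, hi⟩ := Finset.mem_biUnion.1 hy
    exact Finset.mem_sdiff.2 ⟨Finset.mem_univ _, hS i y hi⟩
  have hlow : ∀ i, 6 ≤ (C i).card + S.card := by
    intro i
    have h1 : (univ \ S) \ C i ⊆ nb F univ (x i) := by
      intro y hy
      rw [Finset.mem_sdiff, Finset.mem_sdiff] at hy
      exact Finset.mem_filter.2 ⟨Finset.mem_univ _, hadj i _ (hx i) y hy.1.2 hy.2⟩
    have h2 := (Finset.card_le_card h1).trans (hdeg (x i))
    have h3 : (univ \ S).card - (C i).card ≤ ((univ \ S) \ C i).card :=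
      Finset.le_card_sdiff _ _
    omega
  have hlow1 : ∀ i, 1 ≤ (C i).card := fun i => (hodd i).pos
  have hsum2 : Fintype.card ι * (6 - S.card) ≤ ∑ i, (C i).card := by
    have := Finset.card_nsmul_le_sum (univ : Finset ι) (fun i => (C i).card) (6 - S.card)
      (fun i _ => by have := hlow i; omega)
    rwa [Finset.card_univ, smul_eq_mul] at this
  have hs5 : S.card ≤ 5 := by omega
  have hscase : S.card = 0 ∨ S.card = 5 := by
    have hle := hsum2.trans hsum
    interval_cases hs : S.card <;> simp_all <;> omega
  rcases hscase with h0 | h5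
  · -- the second exceptional structure
    right
    have hk2 : Fintype.card ι = 2 := by
      rw [h0] at hsum2 hsum hk
      omega
    have huniv : (univ : Finset ι).card = 2 := by rw [Finset.card_univ, hk2]
    obtain ⟨i0, i1, h01, hu⟩ := Finset.card_eq_two.1 huniv
    have hs2 : (C i0).card + (C i1).card ≤ 14 := by
      rw [h0] at hsum
      rw [hu, Finset.sum_pair h01] at hsum
      omega
    have hl : ∀ i, 7 ≤ (C i).card := by
      intro i
      have h1 := hlow i
      rw [h0] at h1
      have h2 := hodd i
      rcases Nat.lt_or_ge (C i).card 7 with h | h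
      · have : (C i).card = 6 := by omega
        rw [this] at h2
        exact absurd h2 (by decide)
      · exact h
    have hA := hl i0
    have hB := hl i1
    have hA7 : (C i0).card = 7 := by omega
    have hB7 : (C i1).card = 7 := by omega
    have hSe : S = ∅ := Finset.card_eq_zero.1 h0
    have hdeg1 : ∀ i j, i ≠ j → (C j).card = 7 → ∀ a ∈ C i, (nb F (C i) a).card ≤ 1 := by
      intro i j hij hj a ha
      have h1 : C j ∪ nb F (C i) a ⊆ nb F univ a := by
        intro y hy
        rw [Finset.mem_union] at hy
        rcases hy with hy | hy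
        · exact Finset.mem_filter.2 ⟨Finset.mem_univ _,
            hadj i a ha y (hS j y hy) (hxC i j hij y hy)⟩
        · exact Finset.mem_filter.2 ⟨Finset.mem_univ _, (Finset.mem_filter.1 hy).2⟩
      have h2 := (Finset.card_le_card h1).trans (hdeg a)
      rw [Finset.card_union_of_disjoint] at h2
      · omega
      · rw [Finset.disjoint_left]
        intro y hy hy'
        exact hxC i j hij y hy (Finset.mem_filter.1 hy').1
    refine ⟨C i0, C i1, ?_, hdis i0 i1 h01, hA7, hB7, ?_, hdeg1 i0 i1 h01 hB7,
      hdeg1 i1 i0 h01.symm hA7⟩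
    · apply Finset.eq_univ_of_card
      rw [Finset.card_union_of_disjoint (hdis i0 i1 h01), hcard]
      omega
    · intro a ha b hb
      exact hadj i0 a ha b (hS i1 b hb) (hxC i0 i1 h01 b hb)
  · -- the first exceptional structure
    left
    have hk7' : Fintype.card ι = 7 := by omega
    have hcov : ∀ y, y ∉ S → ∃ i, y ∈ C i := by
      intro y hy
      by_contra hcon
      push Not at hcon
      have hyQ : y ∉ (univ : Finset ι).image x := by
        intro h
        obtain ⟨i, _, rfl⟩ := Finset.mem_image.1 h
        exact hcon i (hx i)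
      apply hK8 (insert y ((univ : Finset ι).image x)) (Finset.subset_univ _)
      · rw [Finset.card_insert_of_notMem hyQ, Finset.card_image_of_injective _ hxinj,
          Finset.card_univ, hk7']
      · intro a ha b hb hab
        rw [Finset.mem_insert] at ha hb
        rcases ha with rfl | ha
        · rcases hb with rfl | hb
          · exact absurd rfl hab
          · obtain ⟨j, _, rfl⟩ := Finset.mem_image.1 hb
            exact (hadj j _ (hx j) _ hy (hcon j)).symm
        · rcases hb with rfl | hb
          · obtain ⟨j, _, rfl⟩ := Finset.mem_image.1 ha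
            exact hadj j _ (hx j) _ hy (hcon j)
          · exact hcl univ a ha b hb hab
    have hsum9 : ∑ i, (C i).card = 9 := by
      rw [← Finset.card_biUnion (fun i _ j _ hij => hdis i j hij)]
      have e : univ.biUnion C = univ \ S := by
        ext y
        rw [Finset.mem_biUnion, Finset.mem_sdiff]
        constructor
        · rintro ⟨i, _, hi⟩
          exact ⟨Finset.mem_univ _, hS i y hi⟩
        · rintro ⟨_, hy⟩
          obtain ⟨i, hi⟩ := hcov y hy
          exact ⟨i, Finset.mem_univ _, hi⟩
      rw [e, hScomp, h5]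
    obtain ⟨i0, hi0⟩ : ∃ i0, 2 ≤ (C i0).card := by
      by_contra hcon
      push Not at hcon
      have : ∑ i, (C i).card ≤ ∑ _i : ι, 1 := Finset.sum_le_sum fun i _ => by
        have := hcon i; omega
      rw [hsum9, Finset.sum_const, Finset.card_univ, hk7'] at this
      simp at this
    have hrest : (univ.erase i0).card = 6 := by
      rw [Finset.card_erase_of_mem (Finset.mem_univ _), Finset.card_univ, hk7']
    have hT3 : (C i0).card = 3 := by
      have h1 : 6 ≤ ∑ i ∈ univ.erase i0, (C i).card := by
        have := Finset.card_nsmul_le_sum (univ.erase i0) (fun i => (C i).card) 1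
          (fun i _ => hlow1 i)
        rw [hrest] at this
        simpa using this
      have h2 := Finset.add_sum_erase univ (fun i => (C i).card) (Finset.mem_univ i0)
      rw [hsum9] at h2
      have h3 : (C i0).card ≤ 3 := by omega
      have h4 := hodd i0
      interval_cases h : (C i0).card
      · exact absurd h4 (by decide)
      · rfl
    have hQcard : ((univ.erase i0).image x).card = 6 := by
      rw [Finset.card_image_of_injective _ hxinj, hrest]
    have hQT : Disjoint ((univ.erase i0).image x) (C i0) := by
      rw [Finset.disjoint_left]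
      intro y hy hy'
      obtain ⟨i, hi, rfl⟩ := Finset.mem_image.1 hy
      exact hxC i i0 (Finset.ne_of_mem_erase hi) (x i) hy' (hx i)
    have hqt : ∀ q ∈ (univ.erase i0).image x, ∀ t ∈ C i0, F.Adj q t := by
      intro q hq t ht
      obtain ⟨i, hi, rfl⟩ := Finset.mem_image.1 hq
      exact hadj i _ (hx i) t (hS i0 t ht) (hxC i i0 (Finset.ne_of_mem_erase hi) t ht)
    refine ⟨(univ.erase i0).image x, C i0, Finset.subset_univ _, Finset.subset_univ _, hQT, hQcard,
      hT3, hcl _, hqt, ?_, ?_⟩
    · intro t ht t' ht' htt
      have hne : t ≠ t' := htt.ne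
      have htQ : t ∉ (univ.erase i0).image x := fun h => Finset.disjoint_left.1 hQT h ht
      have htQ' : t' ∉ (univ.erase i0).image x := fun h => Finset.disjoint_left.1 hQT h ht'
      apply hK8 (insert t (insert t' ((univ.erase i0).image x))) (Finset.subset_univ _)
      · rw [Finset.card_insert_of_notMem, Finset.card_insert_of_notMem htQ', hQcard]
        rw [Finset.mem_insert, not_or]
        exact ⟨hne, htQ⟩
      · intro a ha b hb hab
        rw [Finset.mem_insert, Finset.mem_insert] at ha hb
        rcases ha with rfl | rfl | ha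
        · rcases hb with rfl | rfl | hb
          · exact absurd rfl hab
          · exact htt
          · exact (hqt b hb _ ht).symm
        · rcases hb with rfl | rfl | hb
          · exact htt.symm
          · exact absurd rfl hab
          · exact (hqt b hb _ ht').symm
        · rcases hb with rfl | rfl | hb
          · exact hqt a ha _ ht
          · exact hqt a ha _ ht'
          · exact hcl _ a ha b hb hab
    · intro q hq y _ hqy
      have h1 : ((univ.erase i0).image x).erase q ∪ C i0 ⊆ nb F univ q := by
        intro z hz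
        rw [Finset.mem_union, Finset.mem_erase] at hz
        rcases hz with ⟨hz1, hz2⟩ | hz
        · exact Finset.mem_filter.2 ⟨Finset.mem_univ _, hcl _ q hq z hz2 (Ne.symm hz1)⟩
        · exact Finset.mem_filter.2 ⟨Finset.mem_univ _, hqt q hq z hz⟩
      have h2 : (((univ.erase i0).image x).erase q ∪ C i0).card = 8 := by
        rw [Finset.card_union_of_disjoint, Finset.card_erase_of_mem hq, hQcard, hT3]
        exact hQT.mono_left (Finset.erase_subset _ _)
      have h3 := Finset.eq_of_subset_of_card_le h1 (by rw [h2]; exact hdeg q)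
      have h4 : y ∈ nb F univ q := Finset.mem_filter.2 ⟨Finset.mem_univ _, hqy⟩
      rw [← h3, Finset.mem_union, Finset.mem_erase] at h4
      rcases h4 with ⟨_, h4⟩ | h4
      · exact Or.inl h4
      · exact Or.inr h4

end Pool.Agent.Q277.DJ
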